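import Pool.Agent.H65.HX.SBas

/-!
# Project HX, scheme side, parts CLA and CLB: rows above a middle block
-/

set_option autoImplicit false
open Classical Finset

namespace Pool.Agent.H21.HX

open Pool.Agent.H39.HW (sm Av ln blk lab)
open Pool.Agent.H65.HX Pool.Agent.H65.HX.Sc

/-- basic numbers -/
theorem nums (x : Prm) (hx : Par x) :
    0 < x.η ∧ x.η ≤ 1 / 10 ^ 18 ∧ 0 < x.θ ∧ x.θ ≤ x.η ∧ 0 < x.μ ∧ x.μ ≤ x.η ∧
    0 < x.n0 * x.μ ∧ x.n0 * x.μ ≤ 1 / 10 ^ 12 ∧ 1 / (100 * (x.L : ℝ)) ≤ 1 / 10 ^ 6 := by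
  refine ⟨hx.n1, hx.eta_le, hx.t0, hx.th, hx.m0, ?_, hx.n0pos, hx.n0_le, ?_⟩
  · have h1 := hx.mu_small
    have h2 := hx.th_le
    have h3 := hx.n1
    have h4 : x.η * x.θ ≤ x.η * 1 := mul_le_mul_of_nonneg_left (by
      norm_num at h2 ⊢; linarith) h3.le
    have h5 := hx.m0
    nlinarith
  · have h1 := hx.Lge
    have h2 : (8 * 10 ^ 6 : ℝ) ≤ x.L := by exact_mod_cast h1
    apply one_div_le_one_div_of_le (by norm_num)
    linarith

/-- the rows above a middle block which use it -/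
theorem row_facts (hC : S_CLD) (hA : S_AVA) (hB : S_BLK) (hZ : S_ZON) (x : Prm) (hx : Par x)
    (β : ℕ) (hβ : β ∈ x.mid) (a : ℕ) (ha : a ∈ x.R) (hβa : β < a) (hcls : β ∈ x.cls a) :
    β + x.g + 1 ≤ a ∧ a + x.K + 1 ≤ x.B ∧ 0 ≤ x.dem a β ∧
    (a ≤ β + x.K → x.dem a β = (x.v : ℝ) / x.D) ∧
    (¬ a ≤ β + x.K → x.dem a β ≤ (3 / 5 + x.η) * x.θ * x.μ) ∧
    (a ∉ x.R0 → x.B + 2 * x.n0 < 2 * a) := by
  have hβ' := Finset.mem_Ico.mp hβ
  have hc := hC x hx a ha
  have hβB : β < x.B := (((hc.1 β).mp hcls)).1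
  have hav := (((hc.1 β).mp hcls)).2.1
  have hR := hx.mem_R.mp ha
  refine ⟨(hA x hx a ha β hβB).2.2.2.2.1 hβa.le hav, hR.2, ?_, ?_, ?_, ?_⟩
  · have h1 := (hc.2.2.2.2.2.1 β hcls).1
    have h2 := hx.tmpos
    have h3 : 0 ≤ 7 / 50 * x.θ * x.μ := by nlinarith
    linarith
  · intro h
    have hadj : x.adj a β := ⟨by omega, h⟩
    rw [hc.2.2.2.1 β hcls hadj, (hB x hx).2.2.2.2.2.2.1 β hβ'.1 hβ'.2]
  · intro h
    have hadj : ¬ x.adj a β := fun h' => h h'.2
    exact (hc.2.2.2.2.2.2 β hcls hβ hadj).2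
  · intro h0
    by_contra hcon
    have h1 : 2 * a + 2 * x.n0 < x.B := by
      by_contra h2
      exact h0 (hx.mem_R0.mpr ⟨ha, by omega, by omega⟩)
    have h3 := ((hZ x hx).2.2.2.2.2 a ha).1 h1
    have := h3.2.2.2 β hβB hβa hav
    omega

/-- number of rigid rows -/
theorem card_R0 (x : Prm) : x.R0.card ≤ 2 * x.n0 + 1 := by
  have hsub : x.R0 ⊆ Finset.Icc ((x.B - 2 * x.n0 + 1) / 2) ((x.B + 2 * x.n0) / 2) := by
    intro a ha
    unfold Prm.R0 at ha
    rw [Finset.mem_filter] at ha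
    rw [Finset.mem_Icc]
    omega
  refine (Finset.card_le_card hsub).trans ?_
  rw [Nat.card_Icc]
  omega

theorem split_bound (hC : S_CLD) (hA : S_AVA) (hB : S_BLK) (hZ : S_ZON) (x : Prm) (hx : Par x)
    (β : ℕ) (hβ : β ∈ x.mid) (f : ℕ → ℝ) (q Q : ℝ) (hq : 0 ≤ q) (hQ : 0 ≤ Q)
    (h1 : ∀ a ∈ x.R, β + x.K < a → a ∉ x.R0 → x.B < 2 * a → f a ≤ q)
    (h2 : ∀ a ∈ x.R, β + x.K < a → a ∈ x.R0 → f a ≤ 1)
    (h3 : ∀ a ∈ x.R, β + x.g + 1 ≤ a → a ≤ β + x.K → (a ∉ x.R0 → x.B < 2 * a) →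
      f a * (((x.K : ℝ) - x.g) * (x.v / x.D)) ≤ Q * x.θ) :
    ∑ a ∈ x.R.filter (fun a => β < a ∧ β ∈ x.cls a), f a * x.dem a β ≤
      ((q * (max (((x.B : ℝ) / 2 - β) * x.μ) 0 + 3 * x.η) + (2 * x.n0 + 1) * x.μ) *
        (3 / 5 + x.η) + Q) * x.θ := by
  obtain ⟨hη, hη5, hθ, hθη, hμ, hμη, hn0, hn1, hL⟩ := nums x hx
  set S := x.R.filter (fun a => β < a ∧ β ∈ x.cls a) with hS
  have hmem : ∀ a ∈ S, a ∈ x.R ∧ β < a ∧ β ∈ x.cls a := by
    intro a ha
    rw [hS, Finset.mem_filter] at ha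
    exact ⟨ha.1, ha.2.1, ha.2.2⟩
  have hf := fun a (ha : a ∈ S) =>
    row_facts hC hA hB hZ x hx β hβ a (hmem a ha).1 (hmem a ha).2.1 (hmem a ha).2.2
  have e1 : ∑ a ∈ S, f a * x.dem a β =
      ∑ a ∈ S.filter (fun a => a ≤ β + x.K), f a * x.dem a β +
      ∑ a ∈ S.filter (fun a => ¬ a ≤ β + x.K), f a * x.dem a β := by
    rw [Finset.sum_filter_add_sum_filter_not]
  -- the adjacent rows
  have b1 : ∑ a ∈ S.filter (fun a => a ≤ β + x.K), f a * x.dem a β ≤ Q * x.θ := by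
    have hc : ((S.filter (fun a => a ≤ β + x.K)).card : ℝ) ≤ (x.K : ℝ) - x.g := by
      have hsub : S.filter (fun a => a ≤ β + x.K) ⊆ Finset.Ico (β + x.g + 1) (β + x.K + 1) := by
        intro a ha
        rw [Finset.mem_filter] at ha
        rw [Finset.mem_Ico]
        have := (hf a ha.1).1
        omega
      have h := Finset.card_le_card hsub
      rw [Nat.card_Ico] at h
      have hg := hx.g1
      have h' : ((S.filter (fun a => a ≤ β + x.K)).card) + x.g ≤ x.K := by omega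
      have h'' : (((S.filter (fun a => a ≤ β + x.K)).card + x.g : ℕ) : ℝ) ≤ x.K := by
        exact_mod_cast h'
      push_cast at h''
      linarith
    have hpos : 0 < (x.K : ℝ) - x.g := hx.Kgpos
    have hterm : ∀ a ∈ S.filter (fun a => a ≤ β + x.K), f a * x.dem a β ≤
        Q * x.θ / ((x.K : ℝ) - x.g) := by
      intro a ha
      rw [Finset.mem_filter] at ha
      obtain ⟨hg, -, -, hd, -, hr⟩ := hf a ha.1
      rw [hd ha.2, le_div_iff₀ hpos]
      have := h3 a (hmem a ha.1).1 hg ha.2 (fun h => by have := hr h; omega)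
      calc f a * (x.v / x.D) * ((x.K : ℝ) - x.g) = f a * (((x.K : ℝ) - x.g) * (x.v / x.D)) := by
            ring
        _ ≤ _ := this
    refine (Finset.sum_le_card_nsmul _ _ _ hterm).trans ?_
    rw [nsmul_eq_mul]
    have hQ0 : 0 ≤ Q * x.θ / ((x.K : ℝ) - x.g) := by positivity
    calc ((S.filter (fun a => a ≤ β + x.K)).card : ℝ) * (Q * x.θ / ((x.K : ℝ) - x.g)) ≤
          ((x.K : ℝ) - x.g) * (Q * x.θ / ((x.K : ℝ) - x.g)) :=
            mul_le_mul_of_nonneg_right hc hQ0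
      _ = Q * x.θ := by field_simp
  -- the other rows
  set dv : ℝ := (3 / 5 + x.η) * x.θ * x.μ with hdv
  have hdv0 : 0 ≤ dv := by positivity
  set T := S.filter (fun a => ¬ a ≤ β + x.K) with hT
  have hT1 : (T.card : ℝ) * x.μ ≤ max (((x.B : ℝ) / 2 - β) * x.μ) 0 + 3 * x.η := by
    have hsub : T ⊆ Finset.Ico (β + x.K + 1) (x.B - x.K) := by
      intro a ha
      rw [hT, Finset.mem_filter] at ha
      rw [Finset.mem_Ico]
      have := (hf a ha.1).2.1
      omega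
    have h := Finset.card_le_card hsub
    rw [Nat.card_Ico] at h
    by_cases hc : β + 2 * x.K + 1 ≤ x.B
    · have h4 : T.card + (β + 2 * x.K) ≤ x.B := by omega
      have h5 : ((T.card + (β + 2 * x.K) : ℕ) : ℝ) ≤ x.B := by exact_mod_cast h4
      push_cast at h5
      have h6 : (T.card : ℝ) * x.μ ≤ ((x.B : ℝ) - β - 2 * x.K) * x.μ :=
        mul_le_mul_of_nonneg_right (by linarith) hμ.le
      have h7 : ((x.B : ℝ) - β - 2 * x.K) * x.μ =
          ((x.B : ℝ) / 2 - β) * x.μ + ((x.B : ℝ) / 2 * x.μ - 2 * x.K * x.μ) := by ring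
      have h8 := (abs_le.mp (hZ x hx).2.1).2
      have h9 := le_max_left (((x.B : ℝ) / 2 - β) * x.μ) 0
      linarith
    · have h4 : T.card = 0 := by omega
      rw [h4, Nat.cast_zero, zero_mul]
      have h9 := le_max_right (((x.B : ℝ) / 2 - β) * x.μ) 0
      linarith
  have hT2 : ((T.filter (fun a => a ∈ x.R0)).card : ℝ) ≤ 2 * x.n0 + 1 := by
    have hsub : T.filter (fun a => a ∈ x.R0) ⊆ x.R0 := by
      intro a ha
      rw [Finset.mem_filter] at ha
      exact ha.2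
    have h := (Finset.card_le_card hsub).trans (card_R0 x)
    exact_mod_cast h
  have b2 : ∑ a ∈ T, f a * x.dem a β ≤
      (q * (max (((x.B : ℝ) / 2 - β) * x.μ) 0 + 3 * x.η) + (2 * x.n0 + 1) * x.μ) *
        (3 / 5 + x.η) * x.θ := by
    have hterm : ∀ a ∈ T, f a * x.dem a β ≤ q * dv + (if a ∈ x.R0 then 1 else 0) * dv := by
      intro a ha
      rw [hT, Finset.mem_filter] at ha
      obtain ⟨hg, -, hd0, -, hd, hr⟩ := hf a ha.1
      have hd := hd ha.2
      by_cases h0 : a ∈ x.R0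
      · rw [if_pos h0, one_mul]
        have h4 := h2 a (hmem a ha.1).1 (by omega) h0
        have h5 : f a * x.dem a β ≤ 1 * x.dem a β := mul_le_mul_of_nonneg_right h4 hd0
        have h6 : 0 ≤ q * dv := mul_nonneg hq hdv0
        linarith
      · rw [if_neg h0, zero_mul, add_zero]
        have h4 := h1 a (hmem a ha.1).1 (by omega) h0 (by have := hr h0; omega)
        calc f a * x.dem a β ≤ q * x.dem a β := mul_le_mul_of_nonneg_right h4 hd0
          _ ≤ q * dv := mul_le_mul_of_nonneg_left hd hq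
    refine (Finset.sum_le_sum hterm).trans ?_
    rw [Finset.sum_add_distrib, Finset.sum_const, nsmul_eq_mul, ← Finset.sum_mul,
      Finset.sum_ite, Finset.sum_const_zero, add_zero, Finset.sum_const, nsmul_eq_mul, mul_one]
    have h4 : (T.card : ℝ) * (q * dv) ≤
        q * (max (((x.B : ℝ) / 2 - β) * x.μ) 0 + 3 * x.η) * ((3 / 5 + x.η) * x.θ) := by
      have e : (T.card : ℝ) * (q * dv) = (q * ((T.card : ℝ) * x.μ)) * ((3 / 5 + x.η) * x.θ) := by
        rw [hdv]; ring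
      rw [e]
      exact mul_le_mul_of_nonneg_right (mul_le_mul_of_nonneg_left hT1 hq) (by positivity)
    have h5 : ((T.filter (fun a => a ∈ x.R0)).card : ℝ) * dv ≤ (2 * x.n0 + 1) * dv :=
      mul_le_mul_of_nonneg_right hT2 hdv0
    have e : (2 * (x.n0 : ℝ) + 1) * dv = (2 * x.n0 + 1) * x.μ * (3 / 5 + x.η) * x.θ := by
      rw [hdv]; ring
    rw [e] at h5
    calc _ ≤ q * (max (((x.B : ℝ) / 2 - β) * x.μ) 0 + 3 * x.η) * ((3 / 5 + x.η) * x.θ) +
          (2 * x.n0 + 1) * x.μ * (3 / 5 + x.η) * x.θ := add_le_add h4 h5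
      _ = _ := by ring
  rw [e1]
  calc _ ≤ Q * x.θ + (q * (max (((x.B : ℝ) / 2 - β) * x.μ) 0 + 3 * x.η) +
        (2 * x.n0 + 1) * x.μ) * (3 / 5 + x.η) * x.θ := add_le_add b1 b2
    _ = _ := by ring

/-- no row above the block -/
theorem empty_rows (hC : S_CLD) (hA : S_AVA) (hB : S_BLK) (hZ : S_ZON) (x : Prm) (hx : Par x)
    (β : ℕ) (hβ : β ∈ x.mid) (h : ¬ β + x.K + x.g + 2 ≤ x.B) :
    x.R.filter (fun a => β < a ∧ β ∈ x.cls a) = ∅ := by
  rw [Finset.filter_eq_empty_iff]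
  intro a ha hcon
  obtain ⟨h1, h2, -⟩ := row_facts hC hA hB hZ x hx β hβ a ha hcon.1 hcon.2
  omega

/-- real versions of the position of a block -/
theorem pos_facts (_hZ : S_ZON) (x : Prm) (hx : Par x) (β : ℕ) (hβ : β ∈ x.mid) :
    -(1 / 2 + x.η) ≤ ((x.B : ℝ) / 2 - β) * x.μ ∧ ((x.B : ℝ) / 2 - β) * x.μ ≤ 1 / 2 + x.η := by
  have hβ' := Finset.mem_Ico.mp hβ
  have h1 : (x.b0 : ℝ) ≤ β := by exact_mod_cast hβ'.1
  have h2 : (β : ℝ) ≤ x.b1 := by exact_mod_cast hβ'.2.le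
  rw [hx.b0cast] at h1
  rw [hx.b1cast] at h2
  have h3 := hx.Mmu
  have h4 := hx.Bcast
  have h5 := hx.m0
  have h6 := hx.n1
  constructor
  · have : (-((x.M : ℝ) / 2)) * x.μ ≤ ((x.B : ℝ) / 2 - β) * x.μ :=
      mul_le_mul_of_nonneg_right (by linarith) h5.le
    nlinarith [h3.1, h3.2]
  · have : ((x.B : ℝ) / 2 - β) * x.μ ≤ ((x.M : ℝ) / 2) * x.μ :=
      mul_le_mul_of_nonneg_right (by linarith) h5.le
    nlinarith [h3.1, h3.2]

theorem t_CLB (hC : S_CLD) (hA : S_AVA) (hB : S_BLK) (hZ : S_ZON) (hD : S_DJN) (hLam : S_LAM) :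
    S_CLB := by
  intro x hx β hβ
  by_cases hβK : β + x.K + x.g + 2 ≤ x.B
  swap
  · rw [empty_rows hC hA hB hZ x hx β hβ hβK, Finset.sum_empty, if_neg hβK]
    have := hx.t0
    positivity
  rw [if_pos hβK]
  obtain ⟨hη, hη5, hθ, hθη, hμ, hμη, hn0, hn1, hL⟩ := nums x hx
  obtain ⟨hy1, hy2⟩ := pos_facts hZ x hx β hβ
  have hβ' := Finset.mem_Ico.mp hβ
  have hg := abs_le.mp (hZ x hx).2.2.1
  set y := ((x.B : ℝ) / 2 - β) * x.μ with hy
  norm_num at hη5 hn1 hL
  refine (split_bound hC hA hB hZ x hx β hβ (fun a => x.fr false a β) (1 / 4)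
    (13 / 40 + 3 / 20 * y + 1 / 10 ^ 6) (by norm_num) (by norm_num; linarith) ?_ ?_ ?_).trans ?_
  · intro a ha h1 h2 h3
    have e : x.fr false a β = 1 - x.gA (x.lam a) a β := by unfold Prm.fr; simp
    have hadj : ¬ x.adj a β := fun h => by have := h.2; omega
    show x.fr false a β ≤ 1 / 4
    rw [e]
    unfold Prm.gA
    rw [if_neg h2, if_neg (by omega), if_neg (by omega), if_neg hadj, if_neg (by omega)]
    norm_num
  · intro a ha h1 h2
    have e : x.fr false a β = 1 - x.gA (x.lam a) a β := by unfold Prm.fr; simp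
    show x.fr false a β ≤ 1
    rw [e]
    unfold Prm.gA
    rw [if_pos h2, if_neg (by omega)]
    norm_num
  · intro a ha h1 h2 h3
    have e : x.fr false a β = 1 - x.gA (x.lam a) a β := by unfold Prm.fr; simp
    show x.fr false a β * _ ≤ _
    rw [e]
    have hX := hx.X_le
    set X := ((x.K : ℝ) - x.g) * (x.v / x.D) with hXd
    have h4 : ((β + x.g + 1 : ℕ) : ℝ) ≤ (a : ℝ) := by exact_mod_cast h1
    push_cast at h4
    have hadj : x.adj a β := ⟨by omega, h2⟩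
    unfold Prm.gA
    by_cases h0 : a ∈ x.R0
    · rw [if_pos h0, if_neg (by omega)]
      have h5 := (hx.mem_R0.mp h0).2.2
      have h6 : (2 * a : ℝ) ≤ x.B + 2 * x.n0 := by exact_mod_cast h5
      have h7 : ((x.g : ℝ) + 1 - x.n0) * x.μ ≤ y := by
        rw [hy]
        exact mul_le_mul_of_nonneg_right (by linarith) hμ.le
      have h8 : ((x.g : ℝ) + 1 - x.n0) * x.μ = x.g * x.μ + x.μ - x.n0 * x.μ := by ring
      have h9 : (2 / 5 + x.η) * x.θ ≤ (13 / 40 + 3 / 20 * y + 1 / 10 ^ 6) * x.θ :=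
        mul_le_mul_of_nonneg_right (by norm_num; linarith [hg.1]) hθ.le
      linarith
    · rw [if_neg h0, if_neg (by omega), if_neg (by omega), if_pos hadj]
      have hB2 := h3 h0
      obtain ⟨hl0, hl1, -, hl2⟩ := hLam x hx a ha h0
      have hl2 := (abs_le.mp (hl2 hB2)).1
      have hDJ := (hD x hx a ha h0).2.2
      rw [← hXd] at hDJ
      have h5 : x.lam a * x.DJ a ≤ x.lam a * X := mul_le_mul_of_nonneg_left hDJ hl0
      have h6 : ((x.g : ℝ) + β - x.B / 2) * x.μ ≤ ((a : ℝ) - x.B / 2) * x.μ :=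
        mul_le_mul_of_nonneg_right (by linarith) hμ.le
      have h7 : ((x.g : ℝ) + β - x.B / 2) * x.μ = x.g * x.μ - y := by rw [hy]; ring
      have h8 : 3 / 20 * (x.g * x.μ - y) * x.θ ≤ 3 / 20 * (((a : ℝ) - x.B / 2) * x.μ) * x.θ :=
        mul_le_mul_of_nonneg_right (by linarith) hθ.le
      have h9 : (1 / 2 - 2 * x.η) * x.θ ≤ (x.g * x.μ) * x.θ :=
        mul_le_mul_of_nonneg_right (by linarith [hg.1]) hθ.le
      have h10 : x.η * x.θ ≤ 1 / 10 ^ 18 * x.θ :=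
        mul_le_mul_of_nonneg_right (by norm_num; linarith) hθ.le
      norm_num at h10 ⊢
      nlinarith
  · apply mul_le_mul_of_nonneg_right _ hθ.le
    have hm1 := le_max_left y 0
    have hm2 := le_max_right y 0
    have hm3 : max y 0 ≤ 1 := max_le (by linarith) (by norm_num)
    have e : (1 / 4 * (max y 0 + 3 * x.η) + (2 * x.n0 + 1) * x.μ) * (3 / 5 + x.η) =
      3 / 20 * max y 0 + 9 / 20 * x.η + x.η * (1 / 4 * max y 0 + 3 / 4 * x.η) +
        (2 * (x.n0 * x.μ) + x.μ) * (3 / 5 + x.η) := by ring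
    rw [e]
    have h1 : x.η * (1 / 4 * max y 0 + 3 / 4 * x.η) ≤ x.η * 1 :=
      mul_le_mul_of_nonneg_left (by linarith) hη.le
    have h2 : (2 * (x.n0 * x.μ) + x.μ) * (3 / 5 + x.η) ≤ (2 * (x.n0 * x.μ) + x.μ) * 1 :=
      mul_le_mul_of_nonneg_left (by linarith) (by linarith)
    norm_num
    linarith

theorem t_CLA (hC : S_CLD) (hA : S_AVA) (hB : S_BLK) (hZ : S_ZON) (hD : S_DJN) (hLam : S_LAM) :
    S_CLA := by
  intro x hx β hβ
  by_cases hβK : β + x.K + x.g + 2 ≤ x.B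
  swap
  · rw [empty_rows hC hA hB hZ x hx β hβ hβK, Finset.sum_empty, if_neg hβK]
    have := hx.t0
    positivity
  rw [if_pos hβK]
  obtain ⟨hη, hη5, hθ, hθη, hμ, hμη, hn0, hn1, hL⟩ := nums x hx
  obtain ⟨hy1, hy2⟩ := pos_facts hZ x hx β hβ
  have hβ' := Finset.mem_Ico.mp hβ
  have hK := hx.Kmu
  have hBK := abs_le.mp (hZ x hx).2.1
  set y := ((x.B : ℝ) / 2 - β) * x.μ with hy
  norm_num at hη5 hn1
  have hm1 := le_max_left y 0
  have hm2 := le_max_right y 0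
  have hm3 : max y 0 ≤ 1 / 2 + x.η := max_le hy2 (by linarith)
  refine (split_bound hC hA hB hZ x hx β hβ (fun a => x.fr true a β) (3 / 4)
    (3 / 40 - 3 / 20 * max y 0 + 1 / 10 ^ 5) (by norm_num) (by norm_num; linarith)
    ?_ ?_ ?_).trans ?_
  · intro a ha h1 h2 h3
    have e : x.fr true a β = x.gA (x.lam a) a β := by unfold Prm.fr; simp
    have hadj : ¬ x.adj a β := fun h => by have := h.2; omega
    show x.fr true a β ≤ 3 / 4
    rw [e]
    unfold Prm.gA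
    rw [if_neg h2, if_neg (by omega), if_neg (by omega), if_neg hadj, if_neg (by omega)]
  · intro a ha h1 h2
    have e : x.fr true a β = x.gA (x.lam a) a β := by unfold Prm.fr; simp
    show x.fr true a β ≤ 1
    rw [e]
    unfold Prm.gA
    rw [if_pos h2, if_neg (by omega)]
    norm_num
  · intro a ha h1 h2 h3
    have e : x.fr true a β = x.gA (x.lam a) a β := by unfold Prm.fr; simp
    show x.fr true a β * _ ≤ _
    rw [e]
    have hX := hx.X_le
    set X := ((x.K : ℝ) - x.g) * (x.v / x.D) with hXd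
    have hadj : x.adj a β := ⟨by omega, h2⟩
    unfold Prm.gA
    by_cases h0 : a ∈ x.R0
    · rw [if_pos h0, if_neg (by omega), zero_mul]
      apply mul_nonneg _ hθ.le
      norm_num
      linarith
    · rw [if_neg h0, if_neg (by omega), if_neg (by omega), if_pos hadj]
      have hB2 := h3 h0
      obtain ⟨hl0, hl1, -, hl2⟩ := hLam x hx a ha h0
      have hl2 := (abs_le.mp (hl2 hB2)).2
      have hDJ := (hD x hx a ha h0).1
      have h5 : x.lam a * (X - x.DJ a) ≤ 1 * (X - x.DJ a) := by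
        apply mul_le_mul_of_nonneg_right hl1
        have := (hD x hx a ha h0).2.2
        rw [← hXd] at this
        linarith
      have h4 : (a : ℝ) ≤ β + x.K := by exact_mod_cast h2
      have hR := (hx.mem_R.mp ha).2
      have h4' : (a : ℝ) + x.K + 1 ≤ x.B := by exact_mod_cast hR
      have h6 : ((a : ℝ) - x.B / 2) * x.μ ≤ x.K * x.μ - y := by
        have : ((a : ℝ) - x.B / 2) * x.μ ≤ ((β : ℝ) + x.K - x.B / 2) * x.μ :=
          mul_le_mul_of_nonneg_right (by linarith) hμ.le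
        have e2 : ((β : ℝ) + x.K - x.B / 2) * x.μ = x.K * x.μ - y := by rw [hy]; ring
        linarith
      have h7 : ((a : ℝ) - x.B / 2) * x.μ ≤ x.K * x.μ + 3 * x.η := by
        have : ((a : ℝ) - x.B / 2) * x.μ ≤ ((x.B : ℝ) / 2 - x.K) * x.μ :=
          mul_le_mul_of_nonneg_right (by linarith) hμ.le
        have e2 : ((x.B : ℝ) / 2 - x.K) * x.μ =
          (x.B : ℝ) / 2 * x.μ - 2 * x.K * x.μ + x.K * x.μ := by ring
        linarith [hBK.2]
      have h8 : ((a : ℝ) - x.B / 2) * x.μ ≤ 1 / 2 + 4 * x.η - max y 0 := by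
        rcases le_total y 0 with hc | hc
        · rw [max_eq_right hc]
          linarith [hK.2]
        · rw [max_eq_left hc]
          linarith [hK.2]
      have h9 : 3 / 20 * (((a : ℝ) - x.B / 2) * x.μ) * x.θ ≤
          3 / 20 * (1 / 2 + 4 * x.η - max y 0) * x.θ :=
        mul_le_mul_of_nonneg_right (by linarith) hθ.le
      have h10 : x.η * x.θ ≤ 1 / 10 ^ 18 * x.θ :=
        mul_le_mul_of_nonneg_right (by norm_num; linarith) hθ.le
      have h11 : 1 / (100 * (x.L : ℝ)) * x.θ ≤ 1 / 10 ^ 6 * x.θ :=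
        mul_le_mul_of_nonneg_right hL hθ.le
      have e3 : x.lam a * X = x.lam a * x.DJ a + x.lam a * (X - x.DJ a) := by ring
      rw [e3]
      norm_num at h10 h11 ⊢
      nlinarith
  · apply mul_le_mul_of_nonneg_right _ hθ.le
    have e : (3 / 4 * (max y 0 + 3 * x.η) + (2 * x.n0 + 1) * x.μ) * (3 / 5 + x.η) =
      9 / 20 * max y 0 + 27 / 20 * x.η + x.η * (3 / 4 * max y 0 + 9 / 4 * x.η) +
        (2 * (x.n0 * x.μ) + x.μ) * (3 / 5 + x.η) := by ring
    rw [e]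
    have h1 : x.η * (3 / 4 * max y 0 + 9 / 4 * x.η) ≤ x.η * 1 :=
      mul_le_mul_of_nonneg_left (by linarith) hη.le
    have h2 : (2 * (x.n0 * x.μ) + x.μ) * (3 / 5 + x.η) ≤ (2 * (x.n0 * x.μ) + x.μ) * 1 :=
      mul_le_mul_of_nonneg_left (by linarith) (by linarith)
    norm_num
    linarith

end Pool.Agent.H21.HX
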